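import Pool.Agent.Lib.MP_efa40c_ag.SQ.Gen

/-!
The strong Froeberg-Iarrobino conjecture fails for every difference `k = d - m ≥ 1` (every power
`k + 1 ≥ 2` of linear forms) and every number of points `s` with `n + 5 ≤ s ≤ (41 n + 24) / 40`;
for squares also when `24 s + 29 ≤ 25 n`, or `s = n + 5` and `n ≥ 30`.
-/

namespace Pool.Agent.Variants.MP_efa40c_ag.AllPowersWide

open MvPolynomial

/-- The linear system: forms of degree `d` in `n + 1` variables that vanish to order at least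
`m i` at the point with homogeneous coordinates `p i`, that is, lie in the `m i`-th power of the
maximal ideal of `p i`. -/
noncomputable def linSys (n d : ℕ) {s : ℕ} (m : Fin s → ℕ) (p : Fin s → Fin (n + 1) → ℂ) :
    Submodule ℂ (MvPolynomial (Fin (n + 1)) ℂ) :=
  homogeneousSubmodule (Fin (n + 1)) ℂ d ⊓
    ⨅ i, ((RingHom.ker (eval (p i))) ^ (m i)).restrictScalars ℂ

/-- `k_I = max (∑_{i ∈ I} m_i - r d) 0` with `r = |I| - 1`; for `I` empty this is `d`. -/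
def kI (d : ℕ) {s : ℕ} (m : Fin s → ℕ) (I : Finset (Fin s)) : ℕ :=
  ((∑ i ∈ I, (m i : ℤ)) - ((I.card : ℤ) - 1) * d).toNat

/-- The linear virtual dimension; `|I| = r + 1` ranges over `0, ..., min n s`. -/
def lvdim (n d : ℕ) {s : ℕ} (m : Fin s → ℕ) : ℤ :=
  ∑ I ∈ Finset.univ.filter (fun I : Finset (Fin s) => I.card ≤ min n s),
    (-1) ^ I.card * ((n + kI d m I - I.card).choose n : ℕ)

open Classical in
/-- The linear expected dimension. -/
noncomputable def ldim (n d : ℕ) {s : ℕ} (m : Fin s → ℕ) : ℤ :=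
  if ∃ m' : Fin s → ℕ, (∀ i, m' i ≤ m i) ∧ lvdim n d m' < 0 then 0 else max (lvdim n d m) 0

/-- The exceptional cases (i) to (v) of the conjecture. -/
def Excluded (n d m s : ℕ) : Prop :=
  s = n + 3 ∨ s = n + 4 ∨ (n = 2 ∧ (s = 7 ∨ s = 8)) ∨ (n = 3 ∧ s = 9 ∧ 2 * m ≤ d) ∨
    (n = 4 ∧ s = 14 ∧ d = 2 * m ∧ (m = 2 ∨ m = 3))

lemma mem_linSys (n d : ℕ) {s : ℕ} (m : Fin s → ℕ) (p : Fin s → Fin (n + 1) → ℂ)
    (F : MvPolynomial (Fin (n + 1)) ℂ) :
    F ∈ linSys n d m p ↔ F.IsHomogeneous d ∧ ∀ i, F ∈ (RingHom.ker (eval (p i))) ^ (m i) := by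
  simp [linSys]

theorem result (n s k : ℕ) (hs : n + 5 ≤ s) (hk : 1 ≤ k)
    (h : 40 * s ≤ 41 * n + 24 ∨ (k = 1 ∧ (24 * s + 29 ≤ 25 * n ∨ (s = n + 5 ∧ 30 ≤ n)))) :
    ∃ m : ℕ, 1 ≤ m ∧ 3 * m ≤ n * k + 4 ∧ ¬ Excluded n (m + k) m s ∧
      ∀ p : Fin s → Fin (n + 1) → ℂ, (∀ i, p i ≠ 0) →
        ldim n (m + k) (fun _ : Fin s => m)
          < (Module.finrank ℂ (linSys n (m + k) (fun _ : Fin s => m) p) : ℤ) := by
  obtain ⟨m, h1, h2, h3⟩ := Lib.MP_efa40c_ag.SQ.exists_special n s k hs hk h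
  refine ⟨m, h1, h2, by unfold Excluded; omega, fun p hp => ?_⟩
  have hv : lvdim n (m + k) (fun _ : Fin s => m) = Lib.MP_efa40c_ag.SQ.fa n (k + 1) s (m + k) :=
    Lib.MP_efa40c_ag.SQ.virt_eq n s k m (by omega) (by omega) (by
      have h0 : (k + 1) * (n + 1) = n * k + k + n + 1 := by ring
      omega)
  have hl : ldim n (m + k) (fun _ : Fin s => m)
      ≤ max (Lib.MP_efa40c_ag.SQ.fa n (k + 1) s (m + k)) 0 := by
    rw [ldim, hv]
    split_ifs
    · exact le_max_right _ _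
    · exact le_rfl
  have hle : Lib.MP_efa40c_ag.SQ.V (fun i => if hi : i < s then p ⟨i, hi⟩ else 0) (k + 1) s (m + k)
      ≤ linSys n (m + k) (fun _ : Fin s => m) p := by
    intro F hF
    obtain ⟨hF1, hF2⟩ := Lib.MP_efa40c_ag.SQ.mem_V.mp hF
    refine (mem_linSys n (m + k) _ p F).mpr ⟨hF1, fun i => ?_⟩
    have h4 := hF2 i i.2
    rw [dif_pos i.2] at h4
    have h5 := Lib.MP_efa40c_ag.mem_ker_pow (p i) (hp i) 1 hF1 h4
    rwa [one_smul, show m + k + 1 - (k + 1) = m by omega] at h5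
  have : FiniteDimensional ℂ (linSys n (m + k) (fun _ : Fin s => m) p) :=
    Submodule.finiteDimensional_of_le (inf_le_left : linSys n (m + k) (fun _ : Fin s => m) p ≤ _)
  have h6 := Submodule.finrank_mono hle
  exact lt_of_le_of_lt hl (lt_of_lt_of_le (h3 _) (by exact_mod_cast h6))

end Pool.Agent.Variants.MP_efa40c_ag.AllPowersWide
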